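import Mathlib
import Pool.Agent.Hhelper45.FactorSwap

/-!
# A commutativity preserving bijection of a factor of type II_1 which is not of the expected form

The factor is the group von Neumann algebra of a solvable group `ℤ ⋉ ℚ` (helper31); the bijection
interchanges two self-adjoint elements `a = c² - 2` and `c` which have the same relative commutant.
-/

set_option autoImplicit false

namespace Pool.Agent.Results.MP_9b2fd3_an.TypeTwoCounterexample

variable {H : Type} [NormedAddCommGroup H] [InnerProductSpace ℂ H] [CompleteSpace H]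

/-- `M` is a factor: every element of its centre is a scalar multiple of the identity. -/
def IsFactor (M : VonNeumannAlgebra H) : Prop :=
  ∀ z ∈ M, (∀ x ∈ M, x * z = z * x) → ∃ c : ℂ, z = c • (1 : H →L[ℂ] H)

/-- `M` is infinite dimensional: it is not contained in the span of a finite set (so it is not of
type `I_n` with `n` finite). -/
def IsInfiniteDimensional (M : VonNeumannAlgebra H) : Prop :=
  ∀ s : Finset (H →L[ℂ] H), ¬ ∀ x ∈ M, x ∈ Submodule.span ℂ (s : Set (H →L[ℂ] H))

/-- `M` has a faithful normal tracial state, given by a unit vector `ξ`: `τ(x) = ⟨ξ, x ξ⟩`. -/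
def HasVectorTrace (M : VonNeumannAlgebra H) : Prop :=
  ∃ ξ : H, ‖ξ‖ = 1 ∧ (∀ x ∈ M, ∀ y ∈ M, inner ℂ ξ ((x * y) ξ) = inner ℂ ξ ((y * x) ξ)) ∧
    ∀ x ∈ M, x ξ = 0 → x = 0

/-- The self-adjoint part of `M`. -/
def SelfAdj (M : VonNeumannAlgebra H) : Type := {a : H →L[ℂ] H // a ∈ M ∧ IsSelfAdjoint a}

/-- `φ` preserves commutativity in both directions. -/
def PreservesCommutativity {M : VonNeumannAlgebra H} (φ : SelfAdj M → SelfAdj M) : Prop :=
  ∀ a b : SelfAdj M, a.1 * b.1 = b.1 * a.1 ↔ (φ a).1 * (φ b).1 = (φ b).1 * (φ a).1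

/-- `J` restricts to a Jordan `*`-automorphism of `M`. -/
def IsJordanStarAut (M : VonNeumannAlgebra H) (J : (H →L[ℂ] H) → (H →L[ℂ] H)) : Prop :=
  Set.BijOn J (M : Set (H →L[ℂ] H)) (M : Set (H →L[ℂ] H)) ∧
    (∀ x ∈ M, ∀ y ∈ M, J (x + y) = J x + J y) ∧ (∀ x ∈ M, ∀ c : ℂ, J (c • x) = c • J x) ∧
    (∀ x ∈ M, J (star x) = star (J x)) ∧
    ∀ x ∈ M, ∀ y ∈ M, J (x * y + y * x) = J x * J y + J y * J x

/-- The von Neumann algebra generated by `a` (and the identity): the double commutant of `a`. For
self-adjoint `a` it contains all `f(a)`, `f` a bounded Borel function on the spectrum of `a`. -/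
def generated (a : H →L[ℂ] H) : Set (H →L[ℂ] H) :=
  Set.centralizer (Set.centralizer ({a} : Set (H →L[ℂ] H)))

/-- There are a separable Hilbert space `H`, a factor `M` on `H` of type II_1 (an infinite
dimensional factor with a faithful normal tracial state) and a bijection `φ` of the self-adjoint part
of `M` which preserves commutativity in both directions such that for every Jordan
`*`-automorphism `J` of `M` there is a self-adjoint `a ∈ M` with `φ(a) ≠ J(b)` for all self-adjoint
elements `b` of the von Neumann algebra generated by `a`. -/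
theorem result : ∃ (H : Type) (_ : NormedAddCommGroup H) (_ : InnerProductSpace ℂ H)
    (_ : CompleteSpace H) (_ : TopologicalSpace.SeparableSpace H) (M : VonNeumannAlgebra H),
    IsFactor M ∧ IsInfiniteDimensional M ∧ HasVectorTrace M ∧
      ∃ φ : SelfAdj M → SelfAdj M, Function.Bijective φ ∧ PreservesCommutativity φ ∧
        ∀ J : (H →L[ℂ] H) → (H →L[ℂ] H), IsJordanStarAut M J →
          ∃ a : SelfAdj M, ∀ b ∈ generated a.1, IsSelfAdjoint b → (φ a).1 ≠ J b := by
  refine ⟨Hhelper31.HH, inferInstance, inferInstance, inferInstance, Hhelper31.separable_H2,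
    Hhelper31.M, Hhelper45.FactorSwap.M_factor, Hhelper45.FactorSwap.M_inf, ?_, ?_⟩
  · refine ⟨Hhelper31.dl 1, ?_, fun x hx y hy => Hhelper45.FactorSwap.M_trace x y hx hy,
      Hhelper45.FactorSwap.M_sep⟩
    classical
    unfold Hhelper31.dl
    rw [lp.norm_single (by norm_num)]
    simp
  · refine ⟨Hhelper45.FactorSwap.swp, Hhelper45.FactorSwap.swp_bij, Hhelper45.FactorSwap.swp_comm, ?_⟩
    intro J hJ
    by_contra hcon
    push Not at hcon
    refine Hhelper45.FactorSwap.swp_not J hJ.1 ?_ ?_
    · intro x hx y hy c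
      exact ⟨hJ.2.1 x hx y hy, hJ.2.2.1 x hx c, hJ.2.2.2.1 x hx, hJ.2.2.2.2 x hx y hy⟩
    · intro a
      obtain ⟨b, hb, hsa, h⟩ := hcon a
      exact ⟨b, hsa, hb, h.symm⟩

end Pool.Agent.Results.MP_9b2fd3_an.TypeTwoCounterexample
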